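import Mathlib

set_option autoImplicit false

/-!
The Banach algebra of absolutely summable complex sequences with the pointwise product.
-/

namespace Pool.Agent.X189.SI

open scoped ENNReal

noncomputable section

/-- Absolutely summable complex sequences. -/
abbrev E1 : Type := lp (fun _ : ℕ => ℂ) 1

lemma E1.summable (f : E1) : Summable fun i => ‖f i‖ := by
  have h := (memℓp_gen_iff (p := 1) (by simp)).1 (lp.memℓp f)
  simpa using h

lemma E1.norm_eq (f : E1) : ‖f‖ = ∑' i, ‖f i‖ := by
  have h := lp.norm_eq_tsum_rpow (p := 1) (by simp) f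
  simpa using h

lemma E1.norm_apply_le (f : E1) (i : ℕ) : ‖f i‖ ≤ ‖f‖ := by
  rw [E1.norm_eq]
  exact f.summable.le_tsum i fun _ _ => norm_nonneg _

/-- Build an element of `E1` from a summable sequence. -/
def mk1 (f : ℕ → ℂ) (h : Summable fun i => ‖f i‖) : E1 :=
  ⟨f, memℓp_gen (by simpa using h)⟩

@[simp] lemma mk1_apply (f : ℕ → ℂ) (h : Summable fun i => ‖f i‖) (i : ℕ) : mk1 f h i = f i := rfl

lemma summable_mul (f g : E1) : Summable fun i => ‖f i * g i‖ := by
  refine Summable.of_nonneg_of_le (fun _ => norm_nonneg _) (fun i => ?_) (f.summable.mul_right ‖g‖)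
  rw [norm_mul]
  exact mul_le_mul_of_nonneg_left (g.norm_apply_le i) (norm_nonneg _)

instance : Mul E1 := ⟨fun f g => mk1 (fun i => f i * g i) (summable_mul f g)⟩

@[simp] lemma mul_apply (f g : E1) (i : ℕ) : (f * g) i = f i * g i := rfl

lemma ext1 {f g : E1} (h : ∀ i, f i = g i) : f = g := by
  apply Subtype.ext
  funext i
  exact h i

@[simp] lemma add_apply1 (f g : E1) (i : ℕ) : (f + g) i = f i + g i := rfl
@[simp] lemma zero_apply1 (i : ℕ) : (0 : E1) i = 0 := rfl
@[simp] lemma smul_apply1 (c : ℂ) (f : E1) (i : ℕ) : (c • f) i = c * f i := rfl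

lemma norm_mul_le1 (f g : E1) : ‖f * g‖ ≤ ‖f‖ * ‖g‖ := by
  rw [E1.norm_eq, E1.norm_eq f, ← tsum_mul_right]
  refine (summable_mul f g).tsum_le_tsum (fun i => ?_) (f.summable.mul_right ‖g‖)
  rw [mul_apply, norm_mul]
  exact mul_le_mul_of_nonneg_left (g.norm_apply_le i) (norm_nonneg _)

instance instNUNCR : NonUnitalNormedCommRing E1 :=
  { (inferInstance : NormedAddCommGroup E1) with
    mul := (· * ·)
    left_distrib := fun f g h => ext1 fun i => by
      show f i * (g i + h i) = f i * g i + f i * h i
      ring
    right_distrib := fun f g h => ext1 fun i => by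
      show (f i + g i) * h i = f i * h i + g i * h i
      ring
    zero_mul := fun f => ext1 fun i => by
      show 0 * f i = 0
      ring
    mul_zero := fun f => ext1 fun i => by
      show f i * 0 = 0
      ring
    mul_assoc := fun f g h => ext1 fun i => by
      show f i * g i * h i = f i * (g i * h i)
      ring
    mul_comm := fun f g => ext1 fun i => by
      show f i * g i = g i * f i
      ring
    norm_mul_le := norm_mul_le1 }

instance : IsScalarTower ℂ E1 E1 where
  smul_assoc c f g := ext1 fun i => by
    show c * f i * g i = c * (f i * g i)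
    ring

instance : SMulCommClass ℂ E1 E1 where
  smul_comm c f g := ext1 fun i => by
    show c * (f i * g i) = f i * (c * g i)
    ring

end

end Pool.Agent.X189.SI
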